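import Pool.Agent.H51R3.PS.Stmts51
import Pool.Agent.H594.PSRegP

/-! Task RegA of project H51-PS4: the regularity package for the quotient by `s`. -/

set_option autoImplicit false

namespace Pool.Agent.H493R3.PS

open Pool.Agent.H607R3.PS Pool.Agent.H607R3.PS.RegP

theorem mk_zero_iff {T : Type} [CommRing T] {α β γ : T} (u : RR T α β γ) :
    Ideal.Quotient.mk (Ideal.span {RR.s} : Ideal (RR T α β γ)) u = 0 ↔
      ∃ r : RR T α β γ, u = RR.s * r := by
  rw [Ideal.Quotient.eq_zero_iff_mem, Ideal.mem_span_singleton]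
  rfl

theorem regA_of {T : Type} [CommRing T] {α β γ F G H : T} (h : Reg3 F G H) :
    Reg3 (Ideal.Quotient.mk (Ideal.span {RR.s} : Ideal (RR T α β γ)) (RR.emb F))
      (Ideal.Quotient.mk (Ideal.span {RR.s} : Ideal (RR T α β γ)) (RR.emb G))
      (Ideal.Quotient.mk (Ideal.span {RR.s} : Ideal (RR T α β γ)) (RR.emb H)) := by
  refine ⟨?_, ?_, ?_⟩
  · intro a ha
    obtain ⟨u, rfl⟩ := Ideal.Quotient.mk_surjective a
    rw [← map_mul, mk_zero_iff] at ha
    obtain ⟨r, hr⟩ := ha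
    rw [mk_zero_iff]
    exact hF_s h u r hr
  · intro a b hab
    obtain ⟨u, rfl⟩ := Ideal.Quotient.mk_surjective a
    obtain ⟨v, rfl⟩ := Ideal.Quotient.mk_surjective b
    rw [← map_mul, ← map_mul, ← sub_eq_zero, ← map_sub, mk_zero_iff] at hab
    obtain ⟨r, hr⟩ := hab
    rw [sub_eq_iff_eq_add'] at hr
    obtain ⟨v', r', e⟩ := hG_s h u v r hr
    refine ⟨Ideal.Quotient.mk _ v', ?_⟩
    rw [← map_mul, ← sub_eq_zero, ← map_sub, mk_zero_iff]
    exact ⟨r', by rw [e]; ring⟩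
  · intro c p q hc
    obtain ⟨u, rfl⟩ := Ideal.Quotient.mk_surjective c
    obtain ⟨v, rfl⟩ := Ideal.Quotient.mk_surjective p
    obtain ⟨w, rfl⟩ := Ideal.Quotient.mk_surjective q
    rw [← map_mul, ← map_mul, ← map_mul, ← map_add, ← sub_eq_zero, ← map_sub, mk_zero_iff] at hc
    obtain ⟨r, hr⟩ := hc
    rw [sub_eq_iff_eq_add'] at hr
    obtain ⟨p', q', r', e⟩ := hH_s h u v w r hr
    refine ⟨Ideal.Quotient.mk _ p', Ideal.Quotient.mk _ q', ?_⟩
    rw [← map_mul, ← map_mul, ← map_add, ← sub_eq_zero, ← map_sub, mk_zero_iff]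
    exact ⟨r', by rw [e]; ring⟩

theorem taskRegA : H51R3.PS.TaskRegA := by
  intro T _ α β γ h
  have h1 := regA_of (α := α) (β := β) (γ := γ) h
  simp only [map_pow] at h1
  exact h1

end Pool.Agent.H493R3.PS
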